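import Pool.Agent.H238R2.LR.Pack

set_option autoImplicit false

namespace Pool.Agent.H238R2.Cor

open Finset

section
variable {G : Type} [AddCommGroup G] [Fintype G] [DecidableEq G]

/-- `A` contains no nontrivial corner `(x,y), (x,y+z), (x+z,y)`, `z ≠ 0`. -/
def CornerFree (A : Finset (G × G)) : Prop :=
  ∀ x y z : G, (x, y) ∈ A → (x, y + z) ∈ A → (x + z, y) ∈ A → z = 0

/-- The row of `x`. -/
def row (A : Finset (G × G)) (x : G) : Finset G := univ.filter (fun y => (x, y) ∈ A)

theorem mem_row (A : Finset (G × G)) (x y : G) : y ∈ row A x ↔ (x, y) ∈ A := by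
  simp [row]

theorem card_eq_sum_row (A : Finset (G × G)) : A.card = ∑ x : G, (row A x).card := by
  have h : A = univ.biUnion (fun x : G => (row A x).image (fun y => (x, y))) := by
    ext ⟨x, y⟩
    simp [row]
  conv_lhs => rw [h]
  rw [card_biUnion]
  · refine sum_congr rfl (fun x _ => ?_)
    rw [card_image_of_injective]
    intro y y' hyy
    simpa using hyy
  · intro x _ x' _ hne
    rw [Function.onFun, disjoint_left]
    intro p hp hp'
    simp only [mem_image] at hp hp'
    obtain ⟨y, -, rfl⟩ := hp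
    obtain ⟨y', -, h'⟩ := hp'
    exact hne (Prod.ext_iff.mp h').1.symm

/-- A cluster of rows. -/
theorem cluster (A : Finset (G × G)) (H : Finset G) (hH : H.Nonempty) (E M : ℕ)
    (hM : ∀ P ⊆ H, (∀ x ∈ P, ∀ x' ∈ P, x ≠ x' →
      Fintype.card G < E * (univ.filter (fun y => ¬ ((x, y) ∈ A ↔ (x', y) ∈ A))).card) →
        P.card ≤ M) :
    ∃ p ∈ H, ∃ P ⊆ H, P.Nonempty ∧ H.card ≤ M * P.card ∧
      ∀ x ∈ P, E * (univ.filter (fun y => ¬ ((x, y) ∈ A ↔ (p, y) ∈ A))).card ≤ Fintype.card G := by
  classical
  let sep : Finset G → Prop := fun P => ∀ x ∈ P, ∀ x' ∈ P, x ≠ x' →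
    Fintype.card G < E * (univ.filter (fun y => ¬ ((x, y) ∈ A ↔ (x', y) ∈ A))).card
  obtain ⟨P, hP, hmax⟩ := exists_max_image (H.powerset.filter sep) card
    ⟨∅, mem_filter.mpr ⟨mem_powerset.mpr (empty_subset _), by intro x hx; simp at hx⟩⟩
  rw [mem_filter, mem_powerset] at hP
  obtain ⟨hPH, hPs⟩ := hP
  have hPc := hM P hPH hPs
  set Cl : G → Finset G := fun p =>
    H.filter (fun x => E * (univ.filter (fun y => ¬ ((x, y) ∈ A ↔ (p, y) ∈ A))).card ≤
      Fintype.card G) with hCl
  have hcov : H ⊆ P.biUnion Cl := by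
    intro x hx
    rw [mem_biUnion]
    by_contra hcon
    push Not at hcon
    have hfar : ∀ p ∈ P, Fintype.card G <
        E * (univ.filter (fun y => ¬ ((x, y) ∈ A ↔ (p, y) ∈ A))).card := by
      intro p hp
      have := hcon p hp
      simp only [hCl, mem_filter, hx, true_and, not_le] at this
      exact this
    have hxP : x ∉ P := by
      intro hxP
      have := hfar x hxP
      simp at this
    have hins : insert x P ∈ H.powerset.filter sep := by
      rw [mem_filter, mem_powerset]
      refine ⟨insert_subset hx hPH, ?_⟩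
      intro u hu v hv huv
      rw [mem_insert] at hu hv
      rcases hu with rfl | hu
      · rcases hv with rfl | hv
        · exact absurd rfl huv
        · exact hfar v hv
      · rcases hv with rfl | hv
        · have := hfar u hu
          have e : (univ.filter (fun y => ¬ ((u, y) ∈ A ↔ (v, y) ∈ A))) =
              (univ.filter (fun y => ¬ ((v, y) ∈ A ↔ (u, y) ∈ A))) := by
            ext y; simp only [mem_filter, mem_univ, true_and]; tauto
          rw [e]
          exact this
        · exact hPs u hu v hv huv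
    have := hmax _ hins
    rw [card_insert_of_notMem hxP] at this
    omega
  have hsum : H.card ≤ ∑ p ∈ P, (Cl p).card := (card_le_card hcov).trans card_biUnion_le
  have hPne : P.Nonempty := by
    rw [nonempty_iff_ne_empty]
    rintro rfl
    simp at hsum
    exact hH.ne_empty hsum
  have : ∃ p ∈ P, H.card ≤ M * (Cl p).card := by
    by_contra hcon
    push Not at hcon
    have h1 : ∑ p ∈ P, M * (Cl p).card < ∑ p ∈ P, H.card := sum_lt_sum_of_nonempty hPne hcon
    rw [← mul_sum, sum_const, smul_eq_mul] at h1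
    have h2 : M * H.card ≤ M * ∑ p ∈ P, (Cl p).card := Nat.mul_le_mul_left _ hsum
    have h3 : P.card * H.card ≤ M * H.card := Nat.mul_le_mul_right _ hPc
    omega
  obtain ⟨p, hp, hpc⟩ := this
  refine ⟨p, hPH hp, Cl p, filter_subset _ _, ⟨p, ?_⟩, hpc, ?_⟩
  · simp only [hCl, mem_filter]
    refine ⟨hPH hp, by simp⟩
  · intro x hx
    exact (mem_filter.mp hx).2

/-- Energy inequality. -/
theorem energy (P S : Finset G) : (P.card * S.card) ^ 2 ≤ Fintype.card G *
    ∑ x ∈ P, ∑ x' ∈ P, (S.filter (fun s => s + (x' - x) ∈ S)).card := by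
  have h1 := Finset.card_sq_le_card_mul_addEnergy (s := P) (t := S) univ
  have h2 : ((P ×ˢ S).filter (fun a => a.1 + a.2 ∈ (univ : Finset G))).card = P.card * S.card := by
    simp
  rw [h2, card_univ] at h1
  refine h1.trans (Nat.mul_le_mul_left _ ?_)
  unfold Finset.addEnergy
  have h3 : ((P ×ˢ P) ×ˢ S ×ˢ S).filter (fun x => x.1.1 + x.2.1 = x.1.2 + x.2.2) ⊆
      (P ×ˢ P).biUnion (fun q => (S.filter (fun s => s + (q.2 - q.1) ∈ S)).image
        (fun s => ((q.2, q.1), (s, s + (q.2 - q.1))))) := by
    rintro ⟨⟨a, b⟩, ⟨s, t⟩⟩ h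
    simp only [mem_filter, mem_product] at h
    obtain ⟨⟨⟨ha, hb⟩, hs, ht⟩, he⟩ := h
    have e1 : s + (a - b) = t := by
      have : a + s - b = t := by rw [he]; abel
      rw [← this]; abel
    simp only [mem_biUnion, mem_product, mem_image, mem_filter]
    refine ⟨(b, a), ⟨hb, ha⟩, s, ⟨hs, ?_⟩, ?_⟩
    · show s + (a - b) ∈ S
      rw [e1]; exact ht
    · simp only [Prod.mk.injEq, and_self, true_and]
      exact e1
  calc _ ≤ _ := card_le_card h3
    _ ≤ ∑ q ∈ P ×ˢ P, ((S.filter (fun s => s + (q.2 - q.1) ∈ S)).image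
        (fun s => ((q.2, q.1), (s, s + (q.2 - q.1))))).card := card_biUnion_le
    _ ≤ ∑ q ∈ P ×ˢ P, (S.filter (fun s => s + (q.2 - q.1) ∈ S)).card :=
        sum_le_sum (fun q _ => card_image_le)
    _ = _ := sum_product _ _ _

/-- Corner-freeness and closeness of rows. -/
theorem pair_bound (A : Finset (G × G)) (hA : CornerFree A) (E : ℕ) (p x x' : G) (hne : x ≠ x')
    (hx : E * (univ.filter (fun y => ¬ ((x, y) ∈ A ↔ (p, y) ∈ A))).card ≤ Fintype.card G)
    (hx' : E * (univ.filter (fun y => ¬ ((x', y) ∈ A ↔ (p, y) ∈ A))).card ≤ Fintype.card G) :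
    E * ((row A p).filter (fun s => s + (x' - x) ∈ row A p)).card ≤ 3 * Fintype.card G := by
  set B := univ.filter (fun y => ¬ ((x, y) ∈ A ↔ (p, y) ∈ A)) with hB
  set B' := univ.filter (fun y => ¬ ((x', y) ∈ A ↔ (p, y) ∈ A)) with hB'
  have hsub : (row A p).filter (fun s => s + (x' - x) ∈ row A p) ⊆
      (B ∪ B') ∪ B.image (fun y => y - (x' - x)) := by
    intro s hs
    simp only [mem_filter, mem_row] at hs
    by_contra hcon
    simp only [mem_union, not_or, hB, hB', mem_filter, mem_univ, true_and, not_not, mem_image,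
      not_exists, not_and] at hcon
    obtain ⟨⟨h1, h2⟩, h3⟩ := hcon
    have h4 : ((x, s + (x' - x)) ∈ A ↔ (p, s + (x' - x)) ∈ A) := by
      by_contra h5
      exact h3 (s + (x' - x)) h5 (by abel)
    have h6 := hA x s (x' - x) (h1.mpr hs.1) (h4.mpr hs.2) (by
      have : x + (x' - x) = x' := by abel
      rw [this]; exact h2.mpr hs.1)
    exact hne (sub_eq_zero.mp h6).symm
  have hc : ((row A p).filter (fun s => s + (x' - x) ∈ row A p)).card ≤
      (B.card + B'.card) + B.card := by
    calc _ ≤ _ := card_le_card hsub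
      _ ≤ (B ∪ B').card + (B.image (fun y => y - (x' - x))).card := card_union_le _ _
      _ ≤ (B.card + B'.card) + B.card := Nat.add_le_add (card_union_le _ _) card_image_le
  calc _ ≤ E * ((B.card + B'.card) + B.card) := Nat.mul_le_mul_left _ hc
    _ = E * B.card + E * B'.card + E * B.card := by ring
    _ ≤ 3 * Fintype.card G := by omega

/-- Main inequality: corner-free sets have many rows that are pairwise far apart. -/
theorem main_ineq (A : Finset (G × G)) (hA : CornerFree A) (E M : ℕ)
    (hM : ∀ P : Finset G, (∀ x ∈ P, ∀ x' ∈ P, x ≠ x' →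
      Fintype.card G < E * (univ.filter (fun y => ¬ ((x, y) ∈ A ↔ (x', y) ∈ A))).card) →
        P.card ≤ M) :
    E * A.card ^ 2 ≤ 24 * Fintype.card G ^ 4 ∨ A.card ^ 2 ≤ 8 * M * Fintype.card G ^ 3 := by
  set N := Fintype.card G with hN
  have hNpos : 0 < N := Fintype.card_pos
  by_cases hA0 : A.card = 0
  · left; rw [hA0]; simp
  have hApos : 0 < A.card := Nat.pos_of_ne_zero hA0
  set H : Finset G := univ.filter (fun x => A.card ≤ 2 * N * (row A x).card) with hH
  -- many heavy rows
  have hHc : A.card ≤ 2 * N * H.card := by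
    have h1 : 2 * N * A.card = ∑ x : G, 2 * N * (row A x).card := by
      rw [card_eq_sum_row A, mul_sum]
    have h2 : ∀ x : G, 2 * N * (row A x).card ≤ A.card + (if x ∈ H then 2 * N * N else 0) := by
      intro x
      by_cases hx : x ∈ H
      · rw [if_pos hx]
        have : (row A x).card ≤ N := card_le_univ _
        have := Nat.mul_le_mul_left (2 * N) this
        omega
      · rw [if_neg hx]
        simp only [hH, mem_filter, mem_univ, true_and, not_le] at hx
        omega
    have h3 : 2 * N * A.card ≤ N * A.card + H.card * (2 * N * N) := by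
      rw [h1]
      calc ∑ x : G, 2 * N * (row A x).card
          ≤ ∑ x : G, (A.card + (if x ∈ H then 2 * N * N else 0)) := sum_le_sum (fun x _ => h2 x)
        _ = N * A.card + H.card * (2 * N * N) := by
          rw [sum_add_distrib, sum_const, smul_eq_mul, card_univ, ← hN, sum_ite_mem, univ_inter,
            sum_const, smul_eq_mul]
    have h4 : N * A.card ≤ N * (2 * N * H.card) := by nlinarith
    exact Nat.le_of_mul_le_mul_left h4 hNpos
  have hHne : H.Nonempty := by
    rw [← card_pos]
    rcases Nat.eq_zero_or_pos H.card with h | h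
    · rw [h] at hHc; omega
    · exact h
  obtain ⟨p, hp, P, hPH, hPne, hPc, hcl⟩ := cluster A H hHne E M (fun P _ => hM P)
  set S := row A p with hS
  have hSc : A.card ≤ 2 * N * S.card := by
    have := hp
    simp only [hH, mem_filter, mem_univ, true_and] at this
    exact this
  -- energy
  have hen := energy P S
  have hsum : E * ∑ x ∈ P, ∑ x' ∈ P, (S.filter (fun s => s + (x' - x) ∈ S)).card ≤
      E * (P.card * S.card) + P.card * (P.card * (3 * N)) := by
    rw [mul_sum]
    calc ∑ x ∈ P, E * ∑ x' ∈ P, (S.filter (fun s => s + (x' - x) ∈ S)).card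
        ≤ ∑ x ∈ P, (E * S.card + P.card * (3 * N)) := by
          refine sum_le_sum (fun x hx => ?_)
          rw [mul_sum]
          calc ∑ x' ∈ P, E * (S.filter (fun s => s + (x' - x) ∈ S)).card
              ≤ ∑ x' ∈ P, ((if x' = x then E * S.card else 0) + 3 * N) := by
                refine sum_le_sum (fun x' hx' => ?_)
                by_cases h : x' = x
                · rw [if_pos h]
                  have : (S.filter (fun s => s + (x' - x) ∈ S)).card ≤ S.card :=
                    card_filter_le _ _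
                  have := Nat.mul_le_mul_left E this
                  omega
                · rw [if_neg h, zero_add]
                  exact pair_bound A hA E p x x' (fun h' => h h'.symm) (hcl x hx) (hcl x' hx')
            _ = E * S.card + P.card * (3 * N) := by
                rw [sum_add_distrib, sum_ite_eq' P x, if_pos hx, sum_const, smul_eq_mul]
      _ = E * (P.card * S.card) + P.card * (P.card * (3 * N)) := by
          rw [sum_const, smul_eq_mul]; ring
  have hkey : E * (P.card * S.card ^ 2) ≤ N * (E * S.card + P.card * (3 * N)) := by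
    have h1 : P.card * (E * (P.card * S.card ^ 2)) ≤
        P.card * (N * (E * S.card + P.card * (3 * N))) := by
      calc P.card * (E * (P.card * S.card ^ 2)) = E * (P.card * S.card) ^ 2 := by ring
        _ ≤ E * (N * ∑ x ∈ P, ∑ x' ∈ P, (S.filter (fun s => s + (x' - x) ∈ S)).card) :=
            Nat.mul_le_mul_left _ hen
        _ = N * (E * ∑ x ∈ P, ∑ x' ∈ P, (S.filter (fun s => s + (x' - x) ∈ S)).card) := by ring
        _ ≤ N * (E * (P.card * S.card) + P.card * (P.card * (3 * N))) :=
            Nat.mul_le_mul_left _ hsum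
        _ = P.card * (N * (E * S.card + P.card * (3 * N))) := by ring
    exact Nat.le_of_mul_le_mul_left h1 (card_pos.mpr hPne)
  by_cases hE : E * A.card ^ 2 ≤ 24 * N ^ 4
  · exact Or.inl hE
  right
  push Not at hE
  have hSE : 6 * N ^ 2 < E * S.card ^ 2 := by
    have h1 : A.card ^ 2 ≤ (2 * N * S.card) ^ 2 := Nat.pow_le_pow_left hSc 2
    have h2 : 24 * N ^ 4 < E * (2 * N * S.card) ^ 2 := lt_of_lt_of_le hE (Nat.mul_le_mul_left _ h1)
    have h3 : 4 * N ^ 2 * (6 * N ^ 2) < 4 * N ^ 2 * (E * S.card ^ 2) := by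
      calc 4 * N ^ 2 * (6 * N ^ 2) = 24 * N ^ 4 := by ring
        _ < E * (2 * N * S.card) ^ 2 := h2
        _ = 4 * N ^ 2 * (E * S.card ^ 2) := by ring
    exact Nat.lt_of_mul_lt_mul_left h3
  have hEpos : 0 < E := by
    rcases Nat.eq_zero_or_pos E with h | h
    · rw [h] at hSE; omega
    · exact h
  have hSpos : 0 < S.card := by
    rcases Nat.eq_zero_or_pos S.card with h | h
    · rw [h] at hSE; simp at hSE
    · exact h
  have hPS : P.card * S.card ≤ 2 * N := by
    -- E P S² ≤ N E S + 3 N² P, and 6 N² P ≤ E P S²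
    have h1 : P.card * (6 * N ^ 2) ≤ P.card * (E * S.card ^ 2) := Nat.mul_le_mul_left _ hSE.le
    have h2 : E * S.card * (P.card * S.card) ≤ E * S.card * (2 * N) := by nlinarith
    exact Nat.le_of_mul_le_mul_left h2 (Nat.mul_pos hEpos hSpos)
  -- combine
  have h5 : A.card * A.card ≤ (2 * N * H.card) * (2 * N * S.card) := Nat.mul_le_mul hHc hSc
  calc A.card ^ 2 = A.card * A.card := by ring
    _ ≤ (2 * N * H.card) * (2 * N * S.card) := h5
    _ ≤ (2 * N * (M * P.card)) * (2 * N * S.card) :=
        Nat.mul_le_mul_right _ (Nat.mul_le_mul_left _ hPc)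
    _ = 4 * N ^ 2 * M * (P.card * S.card) := by ring
    _ ≤ 4 * N ^ 2 * M * (2 * N) := Nat.mul_le_mul_left _ hPS
    _ = 8 * M * N ^ 3 := by ring

end

end Pool.Agent.H238R2.Cor
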