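import Pool.Agent.H238R2.Cor.Core

set_option autoImplicit false

namespace Pool.Agent.H238R2.Cor

open Finset

/-- The family of sets `{y : R x y}`, `x ∈ X`, has VC dimension at most `d`. -/
def VCdim {X Y : Type} (R : X → Y → Prop) (d : ℕ) : Prop :=
  ∀ S : Finset Y, (∀ T ⊆ S, ∃ x, ∀ y ∈ S, (R x y ↔ y ∈ T)) → S.card ≤ d

theorem pow_le_exp (a k : ℕ) (hk : 0 < k) : a ^ k ≤ k ^ k * 2 ^ a := by
  have h1 : a ≤ k * 2 ^ (a / k) := by
    have h2 : a < k * (a / k + 1) := Nat.lt_mul_div_succ a hk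
    have h3 : a / k + 1 ≤ 2 ^ (a / k) := Nat.lt_two_pow_self
    exact h2.le.trans (Nat.mul_le_mul_left _ h3)
  calc a ^ k ≤ (k * 2 ^ (a / k)) ^ k := Nat.pow_le_pow_left h1 k
    _ = k ^ k * 2 ^ (a / k * k) := by rw [mul_pow, ← pow_mul]
    _ ≤ k ^ k * 2 ^ a := by
        refine Nat.mul_le_mul_left _ (Nat.pow_le_pow_right (by norm_num) ?_)
        exact Nat.div_mul_le_self a k

theorem exists_param (d E : ℕ) (hE : 1 ≤ E) : ∃ a, (2 * a * E + 1) ^ d < 2 ^ a := by
  set l := 5 * (d + 1) * E with hl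
  have hl1 : 1 ≤ l := by
    have : 0 < 5 * (d + 1) * E := by positivity
    exact this
  have hll : l ≤ 2 ^ l := Nat.lt_two_pow_self.le
  refine ⟨2 * (d + 1) * l, ?_⟩
  have h2 : 2 * (2 * (d + 1) * l) * E + 1 ≤ 2 ^ (2 * l) := by
    calc 2 * (2 * (d + 1) * l) * E + 1 ≤ 2 * (2 * (d + 1) * l) * E + (d + 1) * E * l := by
          refine Nat.add_le_add_left ?_ _
          have : 0 < (d + 1) * E * l := by positivity
          exact this
      _ = l * l := by rw [hl]; ring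
      _ ≤ 2 ^ l * 2 ^ l := Nat.mul_le_mul hll hll
      _ = 2 ^ (2 * l) := by rw [two_mul, pow_add]
  calc (2 * (2 * (d + 1) * l) * E + 1) ^ d ≤ (2 ^ (2 * l)) ^ d := Nat.pow_le_pow_left h2 d
    _ = 2 ^ (2 * l * d) := by rw [← pow_mul]
    _ < 2 ^ (2 * (d + 1) * l) := by
        refine Nat.pow_lt_pow_right (by norm_num) ?_
        nlinarith

theorem param (d : ℕ) : ∃ K : ℕ, 1 ≤ K ∧ ∀ E : ℕ, 1 ≤ E →
    ∃ a, (2 * a * E + 1) ^ d < 2 ^ a ∧ (2 ^ a) ^ 2 ≤ K * E ^ (2 * d + 1) := by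
  classical
  set k := d * (2 * d + 1) with hk
  set L := 2 ^ (2 * d + 1 + k) * k ^ k with hL
  refine ⟨L + 4, by omega, fun E hE => ?_⟩
  obtain ⟨a, ha, hmin⟩ : ∃ a, (2 * a * E + 1) ^ d < 2 ^ a ∧
      ∀ b < a, ¬ (2 * b * E + 1) ^ d < 2 ^ b :=
    ⟨Nat.find (exists_param d E hE), Nat.find_spec (exists_param d E hE),
      fun b hb => Nat.find_min (exists_param d E hE) hb⟩
  refine ⟨a, ha, ?_⟩
  have ha1 : 1 ≤ a := by
    rcases Nat.eq_zero_or_pos a with h | h
    · rw [h] at ha; simp at ha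
    · exact h
  obtain ⟨b, rfl⟩ := Nat.exists_eq_add_of_le' ha1
  have hb := hmin b (by omega)
  push Not at hb
  have h1 : 2 ^ (b + 1) ≤ 2 * (2 * (b + 1) * E) ^ d := by
    calc 2 ^ (b + 1) = 2 * 2 ^ b := by ring
      _ ≤ 2 * (2 * b * E + 1) ^ d := Nat.mul_le_mul_left _ hb
      _ ≤ 2 * (2 * (b + 1) * E) ^ d := by
        refine Nat.mul_le_mul_left _ (Nat.pow_le_pow_left ?_ d)
        nlinarith
  rcases Nat.eq_zero_or_pos d with hd | hd
  · subst hd
    simp only [pow_zero, mul_one] at h1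
    have h2 : (2 ^ (b + 1)) ^ 2 ≤ 2 ^ 2 := Nat.pow_le_pow_left h1 2
    calc (2 ^ (b + 1)) ^ 2 ≤ 4 * 1 := by simpa using h2
      _ ≤ (L + 4) * E ^ (2 * 0 + 1) := by
        refine Nat.mul_le_mul (by omega) ?_
        simpa using hE
  · have hkpos : 0 < k := by rw [hk]; positivity
    have h2 : 2 ^ (b + 1) * ((2 ^ (b + 1)) ^ (2 * d)) ≤ 2 ^ (b + 1) * (L * E ^ k) := by
      calc 2 ^ (b + 1) * ((2 ^ (b + 1)) ^ (2 * d)) = (2 ^ (b + 1)) ^ (2 * d + 1) := by ring
        _ ≤ (2 * (2 * (b + 1) * E) ^ d) ^ (2 * d + 1) := Nat.pow_le_pow_left h1 _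
        _ = 2 ^ (2 * d + 1 + k) * (b + 1) ^ k * E ^ k := by
            rw [mul_pow, ← pow_mul, ← hk, mul_pow, mul_pow, pow_add]; ring
        _ ≤ 2 ^ (2 * d + 1 + k) * (k ^ k * 2 ^ (b + 1)) * E ^ k :=
            Nat.mul_le_mul_right _ (Nat.mul_le_mul_left _ (pow_le_exp _ k hkpos))
        _ = 2 ^ (b + 1) * (L * E ^ k) := by rw [hL]; ring
    have h3 : (2 ^ (b + 1)) ^ (2 * d) ≤ L * E ^ k :=
      Nat.le_of_mul_le_mul_left h2 (by positivity)
    have hL1 : 1 ≤ L := by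
      have : 0 < L := by rw [hL]; positivity
      exact this
    have h4 : ((2 ^ (b + 1)) ^ 2) ^ d ≤ (L * E ^ (2 * d + 1)) ^ d := by
      calc ((2 ^ (b + 1)) ^ 2) ^ d = (2 ^ (b + 1)) ^ (2 * d) := by rw [← pow_mul]
        _ ≤ L * E ^ k := h3
        _ ≤ L ^ d * E ^ k := Nat.mul_le_mul_right _ (Nat.le_self_pow (by omega) L)
        _ = (L * E ^ (2 * d + 1)) ^ d := by rw [mul_pow, ← pow_mul, hk]; ring
    have h5 : (2 ^ (b + 1)) ^ 2 ≤ L * E ^ (2 * d + 1) :=
      (Nat.pow_le_pow_iff_left (by omega)).mp h4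
    exact h5.trans (Nat.mul_le_mul_right _ (by omega))

/-- The bound for rows, in natural numbers. -/
theorem rows_nat (d : ℕ) : ∃ K : ℕ, 1 ≤ K ∧ ∀ (G : Type) [AddCommGroup G] [Fintype G]
    [DecidableEq G] (A : Finset (G × G)), CornerFree A →
    VCdim (fun x y => (x, y) ∈ A) d →
    A.card ^ (4 * d + 6) ≤ K * Fintype.card G ^ (8 * d + 10) := by
  obtain ⟨K, hK1, hK⟩ := param d
  refine ⟨64 * K * 25 ^ (2 * d + 1), ?_, ?_⟩
  · have : 0 < 64 * K * 25 ^ (2 * d + 1) := by positivity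
    exact this
  intro G _ _ _ A hA hVC
  set N := Fintype.card G with hN
  have hNpos : 0 < N := Fintype.card_pos
  rcases Nat.eq_zero_or_pos A.card with hA0 | hApos
  · rw [hA0, zero_pow (by omega)]
    exact Nat.zero_le _
  set c := A.card with hc
  have hcN : c ≤ N ^ 2 := by
    have : A.card ≤ Fintype.card (G × G) := card_le_univ A
    rw [Fintype.card_prod] at this
    rw [pow_two]; exact this
  have hc2 : 0 < c ^ 2 := by positivity
  set E := 24 * N ^ 4 / c ^ 2 + 1 with hE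
  have hE1 : 24 * N ^ 4 < E * c ^ 2 := by
    rw [hE, mul_comm (24 * N ^ 4 / c ^ 2 + 1)]
    exact Nat.lt_mul_div_succ _ hc2
  have hc4 : c ^ 2 ≤ N ^ 4 := by
    calc c ^ 2 ≤ (N ^ 2) ^ 2 := Nat.pow_le_pow_left hcN 2
      _ = N ^ 4 := by ring
  have hE2 : 2 ≤ E := by
    by_contra h
    push Not at h
    have h1 : E * c ^ 2 ≤ 1 * c ^ 2 := Nat.mul_le_mul_right _ (by omega)
    omega
  have hE3 : E * c ^ 2 ≤ 25 * N ^ 4 := by
    rw [hE, add_mul, one_mul]
    have := Nat.div_mul_le_self (24 * N ^ 4) (c ^ 2)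
    omega
  obtain ⟨a, ha, ha2⟩ := hK E (by omega)
  have hmain := main_ineq A hA E (2 ^ a) (by
    intro P hP
    refine (LR.pack (fun x y => decide ((x, y) ∈ A)) univ P univ d E a univ_nonempty hE2
      (subset_univ _) ?_ ?_ ha).le
    · intro x hx x' hx' hne
      have := hP x hx x' hx' hne
      have e : (univ.filter (fun y => decide ((x, y) ∈ A) ≠ decide ((x', y) ∈ A))) =
          (univ.filter (fun y => ¬ ((x, y) ∈ A ↔ (x', y) ∈ A))) := by
        ext y
        simp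
      rw [e, card_univ]
      exact this
    · intro S _ hS
      refine hVC S (fun T hT => ?_)
      obtain ⟨x, -, hx⟩ := hS T hT
      refine ⟨x, fun y hy => ?_⟩
      have := hx y hy
      simpa using this)
  rcases hmain with h | h
  · exact absurd h (not_le.mpr hE1)
  · have h1 : c ^ 4 ≤ 64 * (K * E ^ (2 * d + 1)) * N ^ 6 := by
      calc c ^ 4 = (c ^ 2) ^ 2 := by ring
        _ ≤ (8 * 2 ^ a * N ^ 3) ^ 2 := Nat.pow_le_pow_left h 2
        _ = 64 * (2 ^ a) ^ 2 * N ^ 6 := by ring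
        _ ≤ 64 * (K * E ^ (2 * d + 1)) * N ^ 6 :=
            Nat.mul_le_mul_right _ (Nat.mul_le_mul_left _ ha2)
    calc c ^ (4 * d + 6) = c ^ 4 * (c ^ 2) ^ (2 * d + 1) := by
          rw [← pow_mul, ← pow_add]; congr 1; ring
      _ ≤ (64 * (K * E ^ (2 * d + 1)) * N ^ 6) * (c ^ 2) ^ (2 * d + 1) :=
          Nat.mul_le_mul_right _ h1
      _ = 64 * K * N ^ 6 * (E * c ^ 2) ^ (2 * d + 1) := by rw [mul_pow]; ring
      _ ≤ 64 * K * N ^ 6 * (25 * N ^ 4) ^ (2 * d + 1) :=
          Nat.mul_le_mul_left _ (Nat.pow_le_pow_left hE3 _)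
      _ = 64 * K * 25 ^ (2 * d + 1) * N ^ (8 * d + 10) := by
          rw [mul_pow, ← pow_mul]
          have e : 8 * d + 10 = 6 + 4 * (2 * d + 1) := by ring
          rw [e, pow_add]; ring

/-- The bound for rows, with real exponents. -/
theorem rows_real (d : ℕ) : ∃ C : ℝ, 0 < C ∧ ∀ (G : Type) [AddCommGroup G] [Fintype G]
    [DecidableEq G] (A : Finset (G × G)), CornerFree A →
    VCdim (fun x y => (x, y) ∈ A) d →
    (A.card : ℝ) ≤ C * (Fintype.card G : ℝ) ^ (2 - 1 / (2 * d + 3) : ℝ) := by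
  obtain ⟨K, hK1, hK⟩ := rows_nat d
  refine ⟨(K : ℝ) ^ (1 / (4 * d + 6) : ℝ), by positivity, ?_⟩
  intro G _ _ _ A hA hVC
  have h := hK G A hA hVC
  have hNpos : (0 : ℝ) < Fintype.card G := by
    have : 0 < Fintype.card G := Fintype.card_pos
    exact_mod_cast this
  have h1 : (A.card : ℝ) ^ (4 * d + 6) ≤ K * (Fintype.card G : ℝ) ^ (8 * d + 10) := by
    exact_mod_cast h
  have hpos : (0 : ℝ) < 4 * d + 6 := by positivity
  have h2 : ((A.card : ℝ) ^ (4 * d + 6)) ^ (1 / (4 * d + 6) : ℝ) = A.card := by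
    rw [← Real.rpow_natCast, ← Real.rpow_mul (by positivity)]
    have : (((4 * d + 6 : ℕ) : ℝ)) * (1 / (4 * d + 6)) = 1 := by
      push_cast
      field_simp
    rw [this, Real.rpow_one]
  have h3 : (K * (Fintype.card G : ℝ) ^ (8 * d + 10)) ^ (1 / (4 * d + 6) : ℝ) =
      (K : ℝ) ^ (1 / (4 * d + 6) : ℝ) * (Fintype.card G : ℝ) ^ (2 - 1 / (2 * d + 3) : ℝ) := by
    rw [Real.mul_rpow (by positivity) (by positivity)]
    congr 1
    rw [← Real.rpow_natCast, ← Real.rpow_mul hNpos.le]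
    congr 1
    push_cast
    have h4 : (2 * (d : ℝ) + 3) ≠ 0 := by positivity
    have h5 : (4 * (d : ℝ) + 6) ≠ 0 := by positivity
    field_simp
    ring
  rw [← h2, ← h3]
  exact Real.rpow_le_rpow (by positivity) h1 (by positivity)

section
variable {G : Type} [AddCommGroup G] [Fintype G] [DecidableEq G]

theorem cornerFree_swap (A : Finset (G × G)) (hA : CornerFree A) :
    CornerFree (A.image Prod.swap) := by
  intro x y z h1 h2 h3
  simp only [mem_image, Prod.exists, Prod.swap_prod_mk, Prod.mk.injEq] at h1 h2 h3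
  obtain ⟨a, b, hab, rfl, rfl⟩ := h1
  obtain ⟨a', b', hab', hb', ha'⟩ := h2
  obtain ⟨a'', b'', hab'', hb'', ha''⟩ := h3
  subst ha' ha'' hb' hb''
  exact hA _ _ z hab hab'' hab'

theorem cornerFree_diag (A : Finset (G × G)) (hA : CornerFree A) :
    CornerFree (A.image (fun p : G × G => (-p.1 - p.2, p.2))) := by
  intro x y z h1 h2 h3
  simp only [mem_image, Prod.exists, Prod.mk.injEq] at h1 h2 h3
  obtain ⟨a, b, hab, hx, rfl⟩ := h1
  obtain ⟨a', b', hab', hx', rfl⟩ := h2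
  obtain ⟨a'', b'', hab'', hx'', rfl⟩ := h3
  -- base point (a'' , b'') : a = a'' + z, and (a', b + z) with a' = a''
  have ea : a = a'' + z := by
    have : -a - b'' + z = -a'' - b'' := by rw [hx, hx'']
    have h : a = a'' + z := by
      have h4 : a - a'' = z := by
        calc a - a'' = (-a'' - b'') - (-a - b'') := by abel
          _ = z := by rw [← this]; abel
      rw [← h4]; abel
    exact h
  have ea' : a' = a'' := by
    have h5 : -a' - (b'' + z) = -a - b'' := by rw [hx', hx]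
    calc a' = -(-a' - (b'' + z)) - (b'' + z) := by abel
      _ = -(-a - b'') - (b'' + z) := by rw [h5]
      _ = a - z := by abel
      _ = a'' := by rw [ea]; abel
  subst ea'
  rw [ea] at hab
  exact hA _ _ z hab'' hab' hab

end

/-- Rows, columns or antidiagonals. -/
theorem final (d : ℕ) : ∃ C : ℝ, 0 < C ∧ ∀ (G : Type) [AddCommGroup G] [Fintype G]
    [DecidableEq G] (A : Finset (G × G)), CornerFree A →
    (VCdim (fun x y => (x, y) ∈ A) d ∨ VCdim (fun y x => (x, y) ∈ A) d ∨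
      VCdim (fun s y : G => (s - y, y) ∈ A) d) →
    (A.card : ℝ) ≤ C * (Fintype.card G : ℝ) ^ (2 - 1 / (2 * d + 3) : ℝ) := by
  obtain ⟨C, hC, h⟩ := rows_real d
  refine ⟨C, hC, ?_⟩
  intro G _ _ _ A hA hor
  rcases hor with h1 | h1 | h1
  · exact h G A hA h1
  · have h2 := h G (A.image Prod.swap) (cornerFree_swap A hA) (by
      intro S hS
      refine h1 S (fun T hT => ?_)
      obtain ⟨x, hx⟩ := hS T hT
      refine ⟨x, fun y hy => ?_⟩
      rw [← hx y hy]
      simp)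
    rw [card_image_of_injective _ Prod.swap_injective] at h2
    exact h2
  · have hinj : Function.Injective (fun p : G × G => (-p.1 - p.2, p.2)) := by
      rintro ⟨a, b⟩ ⟨a', b'⟩ hab
      simp only [Prod.mk.injEq] at hab
      obtain ⟨h2, rfl⟩ := hab
      have : a = a' := by
        have h3 : -(-a - b) - b = -(-a' - b) - b := by rw [h2]
        calc a = -(-a - b) - b := by abel
          _ = -(-a' - b) - b := h3
          _ = a' := by abel
      rw [this]
    have h2 := h G (A.image (fun p : G × G => (-p.1 - p.2, p.2))) (cornerFree_diag A hA) (by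
      intro S hS
      refine h1 S (fun T hT => ?_)
      obtain ⟨x, hx⟩ := hS T hT
      refine ⟨-x, fun y hy => ?_⟩
      rw [← hx y hy]
      simp only [mem_image, Prod.exists, Prod.mk.injEq]
      constructor
      · intro h3
        exact ⟨-x - y, y, h3, by abel, rfl⟩
      · rintro ⟨a, b, hab, h3, rfl⟩
        have : -x - b = a := by rw [← h3]; abel
        rw [this]; exact hab)
    rw [card_image_of_injective _ hinj] at h2
    exact h2

end Pool.Agent.H238R2.Cor
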